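import Pool.Agent.U280.OL.Stm

set_option autoImplicit false

/-!
Project OL, package Q6: diagonalization of the Gram matrix.
-/

open MeasureTheory

namespace Pool.Agent.U187.OL

open Pool.Agent.U280.OD Pool.Agent.U280.OE Pool.Agent.U280.OL

lemma rot {M : ℕ} (O : Fin M → Fin M → ℝ)
    (h : ∀ a b, ∑ i, O i a * O i b = if a = b then 1 else 0) (t : Fin M → ℝ) :
    ∑ i, (∑ a, O i a * t a) ^ 2 = ∑ a, t a ^ 2 := by
  have h1 : ∀ i, (∑ a, O i a * t a) ^ 2 = ∑ a, ∑ b, (O i a * O i b) * (t a * t b) := by
    intro i
    rw [sq, Finset.sum_mul_sum]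
    exact Finset.sum_congr rfl fun a _ => Finset.sum_congr rfl fun b _ => by ring
  simp_rw [h1]
  rw [Finset.sum_comm]
  calc (∑ a, ∑ i, ∑ b, (O i a * O i b) * (t a * t b))
      = ∑ a, ∑ b, (∑ i, O i a * O i b) * (t a * t b) := by
        refine Finset.sum_congr rfl fun a _ => ?_
        rw [Finset.sum_comm]
        refine Finset.sum_congr rfl fun b _ => ?_
        rw [Finset.sum_mul]
    _ = ∑ a, t a ^ 2 := by
        refine Finset.sum_congr rfl fun a _ => ?_
        simp_rw [h]
        simp [sq]

/-- Q6: diagonalization of the Gram matrix -/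
theorem t_Q6 : Q6 := by
  intro m M f hf hfs
  set A : Matrix (Fin M) (Fin M) ℝ := Matrix.of fun a b => ∫ y, f a y * f b y with hAdef
  have hA : A.IsHermitian := by
    ext a b
    simp only [Matrix.conjTranspose_apply, hAdef, Matrix.of_apply, star_trivial]
    exact integral_congr_ae (Filter.Eventually.of_forall fun y => mul_comm _ _)
  set O : Fin M → Fin M → ℝ := fun i a => (hA.eigenvectorBasis i).ofLp a with hO
  have h2 : ∀ i j, ∑ a, O i a * O j a = if i = j then 1 else 0 := by
    intro i j
    have h := orthonormal_iff_ite.mp hA.eigenvectorBasis.orthonormal i j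
    rw [← h, PiLp.inner_apply]
    refine Finset.sum_congr rfl fun a _ => ?_
    simp [hO, mul_comm]
  have h1 : ∀ a b, ∑ i, O i a * O i b = if a = b then 1 else 0 := by
    have hU : (Matrix.of O) * (Matrix.of O).transpose = 1 := by
      ext i j
      rw [Matrix.mul_apply, Matrix.one_apply]
      simp only [Matrix.transpose_apply, Matrix.of_apply]
      exact h2 i j
    have hU' : (Matrix.of O).transpose * (Matrix.of O) = 1 := mul_eq_one_comm.1 hU
    intro a b
    have := congrFun (congrFun hU' a) b
    rw [Matrix.mul_apply, Matrix.one_apply] at this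
    simpa only [Matrix.transpose_apply, Matrix.of_apply] using this
  have hint : ∀ a b, Integrable (fun y => f a y * f b y) := fun a b =>
    ((hf a).continuous.mul (hf b).continuous).integrable_of_hasCompactSupport
      ((hfs a).mul_right)
  have h3 : ∀ i j, ∫ y, (∑ a, O i a * f a y) * (∑ a, O j a * f a y) =
      if i = j then hA.eigenvalues i else 0 := by
    intro i j
    have e1 : ∀ y, (∑ a, O i a * f a y) * (∑ a, O j a * f a y) =
        ∑ a, ∑ b, (O i a * O j b) * (f a y * f b y) := by
      intro y
      rw [Finset.sum_mul_sum]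
      exact Finset.sum_congr rfl fun a _ => Finset.sum_congr rfl fun b _ => by ring
    simp_rw [e1]
    rw [integral_finsetSum _ fun a _ => integrable_finsetSum _ fun b _ => (hint a b).const_mul _]
    have e2 : ∀ a, ∫ y, ∑ b, (O i a * O j b) * (f a y * f b y) =
        O i a * (hA.eigenvalues j * O j a) := by
      intro a
      rw [integral_finsetSum _ fun b _ => (hint a b).const_mul _]
      have hm := congrFun (hA.mulVec_eigenvectorBasis j) a
      have hm' : ∑ b, A a b * O j b = hA.eigenvalues j * O j a := by
        simpa [Matrix.mulVec, dotProduct, hO] using hm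
      rw [← hm', Finset.mul_sum]
      refine Finset.sum_congr rfl fun b _ => ?_
      rw [integral_const_mul]
      simp only [hAdef, Matrix.of_apply]
      ring
    simp_rw [e2]
    have e3 : ∑ a, O i a * (hA.eigenvalues j * O j a) = hA.eigenvalues j * ∑ a, O i a * O j a := by
      rw [Finset.mul_sum]
      exact Finset.sum_congr rfl fun a _ => by ring
    rw [e3, h2]
    by_cases hij : i = j
    · subst hij; simp
    · simp [hij]
  refine ⟨O, hA.eigenvalues, h1, h2, h3, fun y => rot O h1 fun a => f a y, fun y j => ?_⟩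
  have h5 : ∀ i, LTd.pd j (fun y => ∑ a, O i a * f a y) y = ∑ a, O i a * LTd.pd j (f a) y := by
    intro i
    have hd : ∀ a, DifferentiableAt ℝ (f a) y := fun a => ((hf a).differentiable (by norm_num)) y
    have hD : HasFDerivAt (fun y => ∑ a, O i a * f a y) (∑ a, O i a • fderiv ℝ (f a) y) y :=
      HasFDerivAt.fun_sum fun a _ => ((hd a).hasFDerivAt.const_mul (O i a))
    unfold LTd.pd
    rw [hD.fderiv]
    simp
  simp_rw [h5]
  exact rot O h1 fun a => LTd.pd j (f a) y

end Pool.Agent.U187.OL
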